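import Pool.Agent.TH971.SP.B3

/-!
Zilber-Pink for pull-backs under rational maps in all coordinates to semiabelian varieties: the
residue class, with a modulus prime to a given number (after `Pool.Agent.TH971.SP.B3`).
-/

set_option autoImplicit false

open MvPolynomial

namespace Pool.Agent.N87.RO

open Pool.Agent.W282.ZP Pool.Agent.TH971.RF Pool.Agent.TH971.SP
open Pool.Agent.W466.EP hiding co

/-- A residue class with prescribed residues modulo powers of finitely many primes. -/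
theorem rclass {κ : Type} [Fintype κ] {M : ℕ} (p : Fin M → ℕ)
    (hp : ∀ m, (p m).Prime) (hinj : Function.Injective p) (E : Fin M → κ → ℕ) (t : Fin M → κ → ℤ) :
    ∃ (Q : ℕ) (G : κ → ℤ), 0 < Q ∧ (∀ ℓ : ℕ, ℓ.Prime → ℓ ∣ Q → ∃ m, ℓ = p m) ∧
      ∀ g : κ → ℤ, (∀ i, (Q : ℤ) ∣ g i - G i) → ∀ m i, (p m : ℤ) ^ E m i ∣ g i - t m i := by
  classical
  have hcop : ∀ i, Pairwise (Function.onFun IsCoprime fun m =>
      Ideal.span {((p m : ℤ)) ^ E m i}) := by
    intro i m m' hne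
    rw [Function.onFun, Ideal.isCoprime_span_singleton_iff]
    apply IsCoprime.pow
    rw [Nat.isCoprime_iff_coprime, Nat.coprime_primes (hp m) (hp m')]
    intro h
    exact hne (hinj h)
  have hcrt : ∀ i, ∃ x : ℤ, ∀ m, (p m : ℤ) ^ E m i ∣ x - t m i := by
    intro i
    obtain ⟨x, hx⟩ := Ideal.exists_forall_sub_mem_ideal (hcop i) (fun m => t m i)
    exact ⟨x, fun m => Ideal.mem_span_singleton.1 (hx m)⟩
  choose G hG using hcrt
  refine ⟨∏ m, ∏ i, p m ^ E m i, G, Finset.prod_pos fun m _ => Finset.prod_pos fun i _ =>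
    pow_pos (hp m).pos _, fun ℓ hℓ hd => ?_, fun g hg m i => ?_⟩
  · obtain ⟨m, -, hm⟩ := (hℓ.prime.dvd_finsetProd_iff _).1 hd
    obtain ⟨i, -, hi⟩ := (hℓ.prime.dvd_finsetProd_iff _).1 hm
    exact ⟨m, (Nat.prime_dvd_prime_iff_eq hℓ (hp m)).1 (hℓ.dvd_of_dvd_pow hi)⟩
  · have h1 : p m ^ E m i ∣ ∏ m, ∏ i, p m ^ E m i :=
      (Finset.dvd_prod_of_mem (fun i => p m ^ E m i) (Finset.mem_univ i)).trans
        (Finset.dvd_prod_of_mem (fun m => ∏ i, p m ^ E m i) (Finset.mem_univ m))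
    have h2 : ((p m : ℤ) ^ E m i) ∣ ((∏ m, ∏ i, p m ^ E m i : ℕ) : ℤ) := by exact_mod_cast h1
    have h3 := dvd_add (h2.trans (hg i)) (hG i m)
    rwa [sub_add_sub_cancel] at h3

theorem exists_class2 {n : ℕ} {q : Fin n → ℕ} {k m d : ℕ} (A B : Fin n → ℂ) (D : Ix q k → ℕ)
    (hD0 : ∀ i, 0 < D i) (hDq : ∀ j, q j.1 ≤ D (Sum.inl j))
    (I : Ideal (MvPolynomial (Fin m) ℂ)) [I.IsPrime]
    (hd : Algebra.trdeg ℂ (MvPolynomial (Fin m) ℂ ⧸ I) = d) (N₀ : ℕ) :
    ∃ (K : IntermediateField ℚ ℂ) (Q : ℕ)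
      (G : Fin m × Fin 2 × ((i : Ix q k) → Fin (D i + 1)) → ℤ), Countable K ∧ 0 < Q ∧
      (∀ ℓ : ℕ, ℓ.Prime → ℓ ∣ Q → N₀ < ℓ) ∧ (∀ j, IsCoprime (G (j, 1, fun _ => 0)) (Q : ℤ)) ∧
      ∀ c : Fin m × Fin 2 × ((i : Ix q k) → Fin (D i + 1)) → ℤ, (∀ i, (Q : ℤ) ∣ c i - G i) →
        ∀ (P : ∀ i, Fin (q i) → (crv (A i) (B i)).Point) (u : Fin k → ℂ),
          (∀ f ∈ I, homV (fun j => mev (fun e => c (j, 0, e)) (hco P u))
            (fun j => mev (fun e => c (j, 1, e)) (hco P u)) f = 0) →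
          ∀ (E : ∀ i, EndRing (A i) (B i)) (Λ : ∀ i, Submodule (E i).O (Fin (q i) → (E i).O)),
          (∀ i, ∀ a ∈ Λ i, ∃ t : ℕ, 0 < t ∧ t • ∑ l, (E i).act (a l) (P i l) = 0) →
          ∀ M₂ : Submodule ℤ (Fin k → ℤ), (∀ a ∈ M₂, ∃ t : ℕ, 0 < t ∧ (∏ w, u w ^ a w) ^ t = 1) →
          ∀ T : Finset (Ix q k), AlgebraicIndependent K (fun j : T => co P u j) →
            T.card + ∑ i, Module.finrank (E i).O (Λ i) + Module.finrank ℤ M₂ + m ≤
              Fintype.card (Ix q k) + d := by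
  classical
  obtain ⟨f, α, β, -, hcor⟩ := exists_corners' I hd
  let s : Finset ℂ := (Finset.univ.biUnion fun J : Finset (Fin m) =>
      (f J).support.image (f J).coeff) ∪
    (Finset.univ.image fun J : Finset (Fin m) => eval (fun j : J => ((α j : ℤ) : ℂ)) (f J)) ∪
    (Finset.univ.image A ∪ Finset.univ.image B)
  obtain ⟨t, htau, halg⟩ := exists_tau s
  set τ : t → ℂ := ((↑) : t → ℂ) with hτ
  obtain ⟨D₀, hD₀, hunit⟩ := const_unit (τ := τ) s halg
  obtain ⟨e, he1, he2⟩ := choose_e (fun j => D (Sum.inl j)) hDq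
  obtain ⟨p, O, hpinj, hpp⟩ := exists_primes ∅ (max (max D₀ N₀) m)
  let g : Fin ((k - 1) * 2 ^ k + 1) → Fin k → ℕ := fun m w => ((m : ℕ) + 1) ^ (w : ℕ)
  obtain ⟨Q, G, hQ, hQp, hclass⟩ := rclass
    (κ := Fin m × Fin 2 × ((i : Ix q k) → Fin (D i + 1))) (M := (k - 1) * 2 ^ k + 1)
    (fun m => p m)
    (fun m => (hpp m).1) (fun m m' h => Fin.ext (hpinj h))
    (fun m' _ => (∑ i, Ex D e (g m') i) + 1)
    (fun m' x => if x.2.1 = 0 then α x.1 * pc (p m') (Ex D e (g m')) ((x.1 : ℕ) + 1) x.2.2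
      else pc (p m') (Ex D e (g m')) ((x.1 : ℕ) + 1) x.2.2)
  have hpD : ∀ m, ¬ p m ∣ D₀ := fun m h =>
    absurd (Nat.le_of_dvd hD₀ h) (not_le.2 (((le_max_left _ _).trans (le_max_left _ _)).trans_lt
      (hpp m).2.1))
  -- the properties of the constants
  have hA : ∀ m, ∀ V : ValuationSubring ℂ, Good τ (p m) V → ∀ a ∈ s, V.valuation a ≤ 1 := by
    intro m V hV a ha
    by_cases h0 : a = 0
    · rw [h0, map_zero]
      exact zero_le_one
    · exact (hunit (p m) (hpD m) V hV a ha h0).le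
  have hAs : ∀ i, A i ∈ s := fun i => Finset.mem_union_right _
    (Finset.mem_union_left _ (Finset.mem_image_of_mem A (Finset.mem_univ i)))
  have hBs : ∀ i, B i ∈ s := fun i => Finset.mem_union_right _
    (Finset.mem_union_right _ (Finset.mem_image_of_mem B (Finset.mem_univ i)))
  have hfs : ∀ (J : Finset (Fin m)) l, (f J).coeff l ≠ 0 → (f J).coeff l ∈ s := fun J l h0 =>
    Finset.mem_union_left _ (Finset.mem_union_left _
      (Finset.mem_biUnion.2 ⟨J, Finset.mem_univ _, Finset.mem_image_of_mem _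
        (MvPolynomial.mem_support_iff.2 h0)⟩))
  have hcs : ∀ J : Finset (Fin m), eval (fun j : J => ((α j : ℤ) : ℂ)) (f J) ∈ s := fun J =>
    Finset.mem_union_left _ (Finset.mem_union_right _ (Finset.mem_image_of_mem
      (fun J : Finset (Fin m) => eval (fun j : J => ((α j : ℤ) : ℂ)) (f J)) (Finset.mem_univ J)))
  refine ⟨IntermediateField.adjoin ℚ (Set.range τ), Q, G, countable_adjoin t, hQ, fun ℓ h1 h2 => ?_,
    fun j => ?_, fun c hc => ?_⟩
  · obtain ⟨m', hm'⟩ := hQp ℓ h1 h2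
    rw [hm']
    exact ((le_max_right _ _).trans (le_max_left _ _)).trans_lt (hpp m').2.1
  · rw [Int.isCoprime_iff_nat_coprime, Int.natAbs_natCast]
    refine Nat.Coprime.symm (Nat.coprime_of_dvd fun ℓ h1 h2 h3 => ?_)
    obtain ⟨m', hm'⟩ := hQp ℓ h1 h2
    have h4 := hclass G (fun i => by rw [sub_self]; exact dvd_zero _) m' (j, 1, fun _ => 0)
    have h5 : pc (p m') (Ex D e (g m')) ((j : ℕ) + 1) (fun _ => 0 : (i : Ix q k) → Fin (D i + 1)) =
        1 := by
      unfold pc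
      exact Finset.prod_eq_one fun i _ => by simp [tgt]
    have h6 : (p m' : ℤ) ∣ G (j, 1, fun _ => 0) - 1 := by
      refine (dvd_pow_self _ (Nat.succ_ne_zero _)).trans (h4.trans ?_)
      simp only [one_ne_zero, if_false]
      rw [h5]
    have h7 : (p m' : ℤ) ∣ G (j, 1, fun _ => 0) := by
      rw [← hm']
      exact Int.natCast_dvd.2 h3
    have h8 : (p m' : ℤ) ∣ 1 := by
      have := dvd_sub h7 h6
      simpa using this
    exact (Nat.prime_iff_prime_int.1 (hpp m').1).not_dvd_one h8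
  have hcm := hclass c hc
  have hLC : ∀ m' : Fin ((k - 1) * 2 ^ k + 1), LCh (p m') (Ex D e (g m')) α c := by
    intro m' j e'
    refine ⟨?_, ?_⟩
    · have h1 := hcm m' (j, 0, e')
      simpa using h1
    · have h1 := hcm m' (j, 1, e')
      simpa using h1
  intro P u hz E Λ hΛ M₂ hM₂ T hT
  by_contra hcon
  push Not at hcon
  have hTτ : AlgebraicIndependent ℚ (Sum.elim (fun j : T => co P u j) τ) := by
    refine htau.sumElim_of_tower (S := IntermediateField.adjoin ℚ (Set.range τ)) ?_ hT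
    rintro _ ⟨i, rfl⟩
    exact ⟨⟨τ i, IntermediateField.subset_adjoin _ _ ⟨i, rfl⟩⟩, rfl⟩
  -- fixed relations
  have hβ : ∀ J : Finset (Fin k), ∃ b : Fin k → ℤ, b ∈ M₂ ∧ (∀ j, j ∉ J → b j = 0) ∧
      ((∃ r ∈ M₂, r ≠ 0 ∧ ∀ j, j ∉ J → r j = 0) → b ≠ 0) := by
    intro J
    by_cases h : ∃ r ∈ M₂, r ≠ 0 ∧ ∀ j, j ∉ J → r j = 0
    · obtain ⟨r, h1, h2, h3⟩ := h
      exact ⟨r, h1, h3, fun _ => h2⟩
    · exact ⟨0, M₂.zero_mem, fun _ _ => rfl, fun h1 => absurd h1 h⟩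
  choose bt hbtM hbtJ hbt0 using hβ
  let ka : Fin k → ℤ := fun w => if (Sum.inr w : Ix q k) ∈ T then 1 else 2
  have hka : ∀ w, ka w ≠ 0 := by
    intro w
    by_cases hw : (Sum.inr w : Ix q k) ∈ T
    · simp [ka, hw]
    · simp [ka, hw]
  have hone : ∀ m' : Fin ((k - 1) * 2 ^ k + 1), ∃ J : Finset (Fin k), bt J ≠ 0 ∧
      ∑ w, (bt J w * ka w) * ((((m' : ℕ) + 1) ^ (w : ℕ) : ℕ) : ℤ) = 0 := by
    intro m'
    obtain ⟨V, hV, hVx⟩ := exists_place τ (fun j : T => co P u j) hTτ (hpp m').1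
      (fun j : T => Sum.elim (fun _ => Mo D) (fun _ => 2) (j : Ix q k))
      (fun j : T => Sum.elim (fun j => Mo D + ((j.2 : ℕ) + 1)) (fun w => g m' w) (j : Ix q k))
      (by
        rintro ⟨j | w, hj⟩
        · exact Nat.mul_pos (Nat.succ_pos _) (Finset.prod_pos fun j _ => hD0 _)
        · exact two_pos)
    let Br : Finset (Ix q k) := Finset.univ.filter fun j =>
      ((hco P u j).2 = 1 ∧ V.valuation (hco P u j).1 ^ D j *
        V.valuation (p m' : ℂ) ^ Ex D e (g m') j = 1)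
    have hBr : m ≤ Br.card + d := card_br hD0 V (hpp m').1
      ((le_max_right _ _).trans_lt (hpp m').2.1) hV.lt (Ex D e (g m')) f α
      (fun J hJ l => by
        by_cases h0 : (f J).coeff l = 0
        · rw [h0, map_zero]
          exact zero_le_one
        · exact hA m' V hV _ (hfs J l h0))
      (fun J hJ => hunit (p m') (hpD m') V hV _ (hcs J) (by
        have h1 := (hcor J hJ).2 (fun _ => true)
        simpa using h1))
      c (hLC m') (hco P u) (hco_nrm P u) (fun J hJ => hz _ (hcor J hJ).1) Br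
      (fun i hi h => hi (Finset.mem_filter.2 ⟨Finset.mem_univ _, h⟩))
    have hcompl : Brᶜ.card + Br.card = Fintype.card (Ix q k) := by
      rw [Finset.card_compl]
      exact Nat.sub_add_cancel (Finset.card_le_univ _)
    obtain ⟨U, hU1, hU2⟩ := one_place' (d := Fintype.card (Ix q k) + d - m) D hD0 e he1 he2 (g m')
      (fun w => pow_pos (Nat.succ_pos _) _) (hpp m').1 V hV A B (fun i => hA m' V hV _ (hAs i))
      (fun i => hA m' V hV _ (hBs i)) P u Brᶜ
      (fun j => by rw [Finset.mem_compl, Finset.mem_filter]; simp) (by omega) T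
      (fun j hj => hVx ⟨Sum.inl j, hj⟩) (fun w hw => hVx ⟨Sum.inr w, hw⟩) E Λ hΛ M₂ hM₂
      (by omega)
    obtain ⟨r', hr, hr0, hrF⟩ := exists_rel M₂ U hU1
    refine ⟨Uᶜ, ?_, ?_⟩
    · refine hbt0 _ ⟨r', hr, hr0, fun j hj => ?_⟩
      rw [Finset.mem_compl, not_not] at hj
      exact hrF j hj
    · exact hU2 (bt Uᶜ) (hbtM _) fun w hw => hbtJ _ w (by rwa [Finset.mem_compl, not_not])
  choose Jf hJf1 hJf2 using hone
  obtain ⟨J, -, hJ⟩ := Finset.exists_lt_card_fiber_of_mul_lt_card_of_maps_to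
    (s := (Finset.univ : Finset (Fin ((k - 1) * 2 ^ k + 1))))
    (t := (Finset.univ : Finset (Finset (Fin k)))) (f := Jf) (n := k - 1)
    (fun _ _ => Finset.mem_univ _) (by
      rw [Finset.card_univ, Finset.card_univ, Fintype.card_finset, Fintype.card_fin,
        Fintype.card_fin, mul_comm]
      omega)
  have hJq : k ≤ (Finset.univ.filter fun l => Jf l = J).card := by omega
  obtain ⟨I', hIJ, hIq⟩ := Finset.exists_subset_card_eq hJq
  have hne : (Finset.univ.filter fun l => Jf l = J).Nonempty := by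
    rw [← Finset.card_pos]
    omega
  obtain ⟨l, hl⟩ := hne
  have h1 := hJf1 l
  rw [(Finset.mem_filter.1 hl).2] at h1
  apply h1
  have h2 : (fun w => bt J w * ka w) = 0 := by
    refine (goodExp_vandermonde (α := Empty) k 1 (fun i => i.elim) (fun i => i.elim)
      (fun i => i.elim)).2.2 I' hIq _ fun l' hl' => ?_
    have h2 := hJf2 l'
    rwa [(Finset.mem_filter.1 (hIJ hl')).2] at h2
  funext w
  have h3 := congrFun h2 w
  exact (mul_eq_zero.1 h3).resolve_right (hka w)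

end Pool.Agent.N87.RO
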