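import Pool.Agent.N24.RW.Main

/-!
# Random orbits of groups of integral matrices: residue classes are visited with positive frequency
-/

set_option autoImplicit false

namespace Pool.Agent.N87.RO

open MeasureTheory Filter Topology Pool.Agent.N24.RW Pool.Agent.N24.RW.Mn

section tr

variable {ι : Type} [Fintype ι] [DecidableEq ι] {R : Type} [CommRing R]

/-- a vector with an invertible coordinate may be changed in the other coordinates -/
lemma mv {x u : ι → R} {i : ι} (hx : IsUnit (x i)) (hu : u i = 0) :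
    ∃ g : Matrix.SpecialLinearGroup ι R, g.1.mulVec x = x + u := by
  obtain ⟨a, ha⟩ := hx
  refine ⟨⟨1 + Matrix.vecMulVec u (Pi.single i (↑a⁻¹ : R)), ?_⟩, ?_⟩
  · rw [Matrix.vecMulVec_eq Unit, Matrix.det_one_add_replicateCol_mul_replicateRow]
    rw [single_dotProduct, hu, mul_zero, add_zero]
  · change (1 + Matrix.vecMulVec u (Pi.single i (↑a⁻¹ : R))).mulVec x = x + u
    rw [Matrix.add_mulVec, Matrix.one_mulVec]
    congr 1
    funext k
    rw [Matrix.mulVec, dotProduct]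
    simp only [Matrix.vecMulVec_apply]
    rw [Finset.sum_eq_single i]
    · rw [Pi.single_eq_same, ← ha, mul_assoc, Units.inv_mul, mul_one]
    · intro j _ hj
      rw [Pi.single_eq_of_ne hj, mul_zero, zero_mul]
    · intro h
      exact absurd (Finset.mem_univ i) h

lemma core {x y : ι → R} {i j : ι} (hij : i ≠ j) (hx : IsUnit (x i)) (hy : IsUnit (y j)) :
    ∃ g : Matrix.SpecialLinearGroup ι R, g.1.mulVec x = y := by
  obtain ⟨u, hu⟩ : ∃ u : ι → R, u = fun k => if k = i then 0 else y k - x k := ⟨_, rfl⟩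
  obtain ⟨g1, h1⟩ := mv (x := x) (u := u) hx (by rw [hu]; exact if_pos rfl)
  have hj : (x + u) j = y j := by
    rw [Pi.add_apply, hu]
    simp only [if_neg hij.symm]
    ring
  obtain ⟨g2, h2⟩ := mv (x := x + u) (u := Pi.single i (y i - x i)) (i := j) (by rw [hj]; exact hy)
    (Pi.single_eq_of_ne hij.symm _)
  refine ⟨g2 * g1, ?_⟩
  rw [Matrix.SpecialLinearGroup.coe_mul, ← Matrix.mulVec_mulVec]
  change g2.1.mulVec (g1.1.mulVec x) = y
  rw [h1, h2]
  funext k
  rw [Pi.add_apply, Pi.add_apply, hu]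
  by_cases hk : k = i
  · subst hk
    rw [Pi.single_eq_same]
    simp only [if_true]
    ring
  · rw [Pi.single_eq_of_ne hk]
    simp only [if_neg hk]
    ring

/-- transitivity on the vectors with an invertible coordinate -/
lemma transl {x y : ι → R} {i j : ι} (hc : 2 ≤ Fintype.card ι) (hx : IsUnit (x i))
    (hy : IsUnit (y j)) : ∃ g : Matrix.SpecialLinearGroup ι R, g.1.mulVec x = y := by
  by_cases hij : i = j
  · subst hij
    obtain ⟨k, hk⟩ : ∃ k, k ≠ i := Fintype.exists_ne_of_one_lt_card (by omega) i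
    obtain ⟨g1, h1⟩ := core (x := x) (y := fun _ => 1) (i := i) (j := k) hk.symm hx isUnit_one
    obtain ⟨g2, h2⟩ := core (x := fun _ => 1) (y := y) (i := k) (j := i) hk isUnit_one hy
    refine ⟨g2 * g1, ?_⟩
    rw [Matrix.SpecialLinearGroup.coe_mul, ← Matrix.mulVec_mulVec]
    change g2.1.mulVec (g1.1.mulVec x) = y
    rw [h1, h2]
  · exact core hij hx hy

end tr

variable {ι : Type} [Fintype ι] [DecidableEq ι]

/-- **Residue classes are visited with positive frequency.** -/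
theorem pos (hE : S_ERG) (hcard : 2 ≤ Fintype.card ι) (W : Walk ι) (v : ι → ℤ)
    (i0 : ι) (q : ℕ) (hq : 0 < q) (hqc : q.Coprime (W.q₀ * (v i0).natAbs)) (G : ι → ℤ) (j0 : ι)
    (hG : IsCoprime (G j0) (q : ℤ)) :
    ∃ δ : ℝ, 0 < δ ∧ ∀ᵐ w ∂(words W.m), ∀ᶠ N : ℕ in atTop,
      δ * (N : ℝ) ≤ ({n : ℕ | n < N ∧ ∀ i, (q : ℤ) ∣ orb W v w n i - G i}.ncard : ℝ) := by
  have : NeZero q := ⟨hq.ne'⟩
  have hq0 : q.Coprime W.q₀ := Nat.Coprime.coprime_mul_right_right hqc
  have hc2 : q.Coprime (v i0).natAbs := Nat.Coprime.coprime_mul_left_right hqc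
  have hu : IsUnit (red q v i0) := by
    unfold red
    rw [ZMod.coe_int_isUnit_iff_isCoprime, Int.isCoprime_iff_gcd_eq_one]
    exact hc2
  have hu' : IsUnit (red q G j0) := by
    unfold red
    rw [ZMod.coe_int_isUnit_iff_isCoprime]
    exact hG.symm
  obtain ⟨g, hg⟩ := transl hcard hu hu'
  have : Finite (Ob (red q v)) := by
    unfold Ob
    infer_instance
  obtain ⟨y, hy⟩ : ∃ y : Ob (red q v), y.1 = red q G := ⟨⟨red q G, g, hg⟩, rfl⟩
  have hX : 0 < Nat.card (Ob (red q v)) := Nat.card_pos_iff.2 ⟨⟨y⟩, inferInstance⟩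
  have hXr : (0 : ℝ) < Nat.card (Ob (red q v)) := by exact_mod_cast hX
  refine ⟨1 / (2 * (Nat.card (Ob (red q v)) : ℝ)), by positivity, ?_⟩
  have h1 := hE (Matrix.SpecialLinearGroup ι (ZMod q)) (Ob (red q v)) W.m
    (fun j => Matrix.SpecialLinearGroup.map (Int.castRingHom (ZMod q)) (W.s j))
    (W.gen q hq hq0) (Pool.Agent.N24.RW.Mn.base (red q v)) {y}
  filter_upwards [h1] with w hw
  have h2 := hw (wk (red q v) (fun j => Matrix.SpecialLinearGroup.map (Int.castRingHom (ZMod q))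
    (W.s j)) w) rfl (fun n => rfl)
  rw [Set.ncard_singleton, Nat.cast_one] at h2
  have h3 := (tendsto_order.1 h2).1 (1 / (2 * (Nat.card (Ob (red q v)) : ℝ))) (by
    apply one_div_lt_one_div_of_lt hXr
    linarith)
  filter_upwards [h3, eventually_gt_atTop 0] with N hN hN0
  have hNr : (0 : ℝ) < N := by exact_mod_cast hN0
  rw [lt_div_iff₀ hNr] at hN
  refine hN.le.trans ?_
  have h4 : {n : ℕ | n < N ∧ wk (red q v) (fun j => Matrix.SpecialLinearGroup.map
      (Int.castRingHom (ZMod q)) (W.s j)) w n ∈ ({y} : Set (Ob (red q v)))}.ncard ≤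
      {n : ℕ | n < N ∧ ∀ i, (q : ℤ) ∣ orb W v w n i - G i}.ncard := by
    refine Set.ncard_le_ncard ?_ ((Set.finite_Iio N).subset fun n hn => hn.1)
    intro n hn
    refine ⟨hn.1, fun i => ?_⟩
    have h5 : (wk (red q v) (fun j => Matrix.SpecialLinearGroup.map
      (Int.castRingHom (ZMod q)) (W.s j)) w n).1 = y.1 := congrArg Subtype.val hn.2
    rw [wk_val, hy] at h5
    have h6 := congrFun h5 i
    unfold red at h6
    rw [← sub_eq_zero, ← Int.cast_sub, ZMod.intCast_zmod_eq_zero_iff_dvd] at h6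
    exact h6
  exact_mod_cast h4

/-- **Almost surely all residue classes are visited with positive frequency.** -/
theorem posAll (hE : S_ERG) (hcard : 2 ≤ Fintype.card ι) (W : Walk ι) (v : ι → ℤ) :
    ∀ᵐ w ∂(words W.m), ∀ (i0 : ι) (q : ℕ) (G : ι → ℤ) (j0 : ι), 0 < q →
      q.Coprime (W.q₀ * (v i0).natAbs) → IsCoprime (G j0) (q : ℤ) →
      ∃ δ : ℝ, 0 < δ ∧ ∀ᶠ N : ℕ in atTop,
        δ * (N : ℝ) ≤ ({n : ℕ | n < N ∧ ∀ i, (q : ℤ) ∣ orb W v w n i - G i}.ncard : ℝ) := by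
  rw [ae_all_iff]
  intro i0
  rw [ae_all_iff]
  intro q
  rw [ae_all_iff]
  intro G
  rw [ae_all_iff]
  intro j0
  by_cases h : 0 < q ∧ q.Coprime (W.q₀ * (v i0).natAbs) ∧ IsCoprime (G j0) (q : ℤ)
  · obtain ⟨δ, hδ, h1⟩ := pos hE hcard W v i0 q h.1 h.2.1 G j0 h.2.2
    filter_upwards [h1] with w hw _ _ _
    exact ⟨δ, hδ, hw⟩
  · exact ae_of_all _ fun w h1 h2 h3 => absurd ⟨h1, h2, h3⟩ h

end Pool.Agent.N87.RO
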